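import Pool.Agent.H15.DSep7

set_option autoImplicit false

namespace Pool.Agent.Results.MP_4cef1b_gt.Square

open Pool.Agent.H15.DSep

theorem result : ∃ (X : Type) (_ : TopologicalSpace X), T35Space X ∧
    ¬ IsDSep X ∧ ¬ IsSelDSep X ∧ IsSelDSep (X × X) := by
  refine ⟨Node, inferInstance, inferInstance, Node.not_dsep, fun h => Node.not_dsep ?_,
    Node.sq_dsep⟩
  obtain ⟨F, h1, h2⟩ := h (fun _ => Set.univ) fun _ => dense_univ
  exact ⟨F, fun n => (h1 n).2, h2⟩

end Pool.Agent.Results.MP_4cef1b_gt.Square
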